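import Pool.Agent.Results.MP_cb27ba_nt.InitialSegments

/-! The number of the exceptional primes for the initial segments of a set of natural numbers, uniformly in the set. -/

set_option autoImplicit false

namespace Pool.Agent.L7h79.CB

open Finset

open scoped Classical in
/-- the elements of `𝒜` below `p` -/
noncomputable def seg (𝒜 : Set ℕ) (p : ℕ) : Finset ℕ := (range p).filter (fun n => n ∈ 𝒜)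

/-- the sum of the Legendre symbols of the differences -/
noncomputable def S (p : ℕ) (A : Finset ℕ) : ℝ := ∑ a ∈ A, ∑ b ∈ A, (jacobiSym ((a : ℤ) - b) p : ℝ)

/-- the bound of the question, with saving `τ`, for the quadratic character modulo `p` and all subsets of `𝒜(p)` with at least
`|𝒜(p)| ^ (1 - τ)` elements, if `|𝒜(p)| ≥ p ^ δ` -/
def Good (δ τ : ℝ) (𝒜 : Set ℕ) (p : ℕ) : Prop :=
  (p : ℝ) ^ δ ≤ (seg 𝒜 p).card → ∀ A ⊆ seg 𝒜 p, ((seg 𝒜 p).card : ℝ) ^ (1 - τ) ≤ A.card →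
    |S p A| < (A.card : ℝ) ^ (2 - τ)

/-- the number of the exceptional primes, uniformly in `𝒜` -/
lemma count (δ : ℝ) (hδ : 0 < δ) : ∃ τ C : ℝ, 0 < τ ∧ τ ≤ 1 ∧ ∀ (𝒜 : Set ℕ) (X : ℕ), 1 ≤ X →
    ({t : ℕ | 1 ≤ t ∧ t ≤ X ∧ (t.Prime ∧ ¬ Good δ τ 𝒜 t)}.ncard : ℝ) ≤ C * (X : ℝ) ^ (1 - τ) := by
  obtain ⟨τ', hτ', Q₀, hQ₀⟩ := Pool.Agent.Results.MP_cb27ba_nt.InitialSegments.result δ hδ
  obtain ⟨τ, hτd⟩ : ∃ τ, τ = min τ' 1 := ⟨_, rfl⟩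
  have hτ : 0 < τ := by rw [hτd]; exact lt_min hτ' one_pos
  have hτ1 : τ ≤ 1 := by rw [hτd]; exact min_le_right _ _
  have hττ : τ ≤ τ' := by rw [hτd]; exact min_le_left _ _
  refine ⟨τ, (Q₀ : ℝ) + 1, hτ, hτ1, fun 𝒜 X hX => ?_⟩
  have hkey : ∀ Q : ℕ, Q₀ ≤ Q → 1 ≤ Q →
      ({p : ℕ | 1 ≤ p ∧ p ≤ Q ∧ (p.Prime ∧ ¬ Good δ τ 𝒜 p)}.ncard : ℝ) ≤ (Q : ℝ) ^ (1 - τ) := by
    intro Q hQ hQ1
    have h := hQ₀ Q hQ 𝒜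
    have hQ1' : (1 : ℝ) ≤ Q := by exact_mod_cast hQ1
    have hfin : {p : ℕ | p.Prime ∧ p ≤ Q ∧ (p : ℝ) ^ δ ≤ (Pool.Agent.Results.MP_cb27ba_nt.InitialSegments.seg 𝒜 p).card ∧ ∃ A ⊆ Pool.Agent.Results.MP_cb27ba_nt.InitialSegments.seg 𝒜 p,
        ((Pool.Agent.Results.MP_cb27ba_nt.InitialSegments.seg 𝒜 p).card : ℝ) ^ (1 - τ') ≤ A.card ∧ (A.card : ℝ) ^ (2 - τ') ≤ |Pool.Agent.Results.MP_cb27ba_nt.InitialSegments.S p A|}.Finite :=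
      (Set.finite_Iic Q).subset (fun p hp => hp.2.1)
    have hsub : {p : ℕ | 1 ≤ p ∧ p ≤ Q ∧ (p.Prime ∧ ¬ Good δ τ 𝒜 p)} ⊆
        {p : ℕ | p.Prime ∧ p ≤ Q ∧ (p : ℝ) ^ δ ≤ (Pool.Agent.Results.MP_cb27ba_nt.InitialSegments.seg 𝒜 p).card ∧ ∃ A ⊆ Pool.Agent.Results.MP_cb27ba_nt.InitialSegments.seg 𝒜 p,
        ((Pool.Agent.Results.MP_cb27ba_nt.InitialSegments.seg 𝒜 p).card : ℝ) ^ (1 - τ') ≤ A.card ∧ (A.card : ℝ) ^ (2 - τ') ≤ |Pool.Agent.Results.MP_cb27ba_nt.InitialSegments.S p A|} := by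
      rintro p ⟨g1, g2, g3, g4⟩
      unfold Good at g4
      push Not at g4
      obtain ⟨g5, A, g6, g7, g8⟩ := g4
      refine ⟨g3, g2, g5, A, g6, ?_, ?_⟩
      · have hp0 : (0 : ℝ) < (p : ℝ) ^ δ := Real.rpow_pos_of_pos (by exact_mod_cast g3.pos) _
        have hc0 : 0 < (seg 𝒜 p).card := by
          have : (0 : ℝ) < (seg 𝒜 p).card := lt_of_lt_of_le hp0 g5
          exact_mod_cast this
        have hc1 : (1 : ℝ) ≤ (seg 𝒜 p).card := by exact_mod_cast hc0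
        refine le_trans ?_ g7
        exact Real.rpow_le_rpow_of_exponent_le hc1 (by linarith)
      · have hp0 : (0 : ℝ) < (p : ℝ) ^ δ := Real.rpow_pos_of_pos (by exact_mod_cast g3.pos) _
        have hc0 : (0 : ℝ) < (seg 𝒜 p).card := lt_of_lt_of_le hp0 g5
        have hA0 : (0 : ℝ) < A.card := lt_of_lt_of_le (Real.rpow_pos_of_pos hc0 _) g7
        have hA0' : 0 < A.card := by exact_mod_cast hA0
        have hA1 : (1 : ℝ) ≤ A.card := by exact_mod_cast hA0'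
        refine le_trans ?_ g8
        exact Real.rpow_le_rpow_of_exponent_le hA1 (by linarith)
    calc ({p : ℕ | 1 ≤ p ∧ p ≤ Q ∧ (p.Prime ∧ ¬ Good δ τ 𝒜 p)}.ncard : ℝ) ≤ _ := by
          exact_mod_cast Set.ncard_le_ncard hsub hfin
      _ ≤ (Q : ℝ) ^ (1 - τ') := h
      _ ≤ (Q : ℝ) ^ (1 - τ) := Real.rpow_le_rpow_of_exponent_le hQ1' (by linarith)
  have hX1 : (1 : ℝ) ≤ X := by exact_mod_cast hX
  have hXs : (1 : ℝ) ≤ (X : ℝ) ^ (1 - τ) := Real.one_le_rpow hX1 (by linarith)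
  rcases le_total Q₀ X with h3 | h3
  · refine (hkey X h3 hX).trans ?_
    have : (0 : ℝ) ≤ Q₀ := Nat.cast_nonneg _
    nlinarith
  · have hsub : {t : ℕ | 1 ≤ t ∧ t ≤ X ∧ (t.Prime ∧ ¬ Good δ τ 𝒜 t)} ⊆ (Icc 1 X : Finset ℕ) := by
      rintro t ⟨g1, g2, -⟩
      rw [Finset.mem_coe, mem_Icc]
      exact ⟨g1, g2⟩
    have h4 : {t : ℕ | 1 ≤ t ∧ t ≤ X ∧ (t.Prime ∧ ¬ Good δ τ 𝒜 t)}.ncard ≤ X := by
      refine (Set.ncard_le_ncard hsub (Finset.finite_toSet _)).trans ?_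
      rw [Set.ncard_coe_finset, Nat.card_Icc]
      omega
    have h5 : ({t : ℕ | 1 ≤ t ∧ t ≤ X ∧ (t.Prime ∧ ¬ Good δ τ 𝒜 t)}.ncard : ℝ) ≤ (Q₀ : ℝ) := by
      exact_mod_cast h4.trans h3
    have : (0 : ℝ) ≤ Q₀ := Nat.cast_nonneg _
    nlinarith

/-- the number of the exceptional primes, uniformly in `𝒜`, for real bounds -/
lemma count' (δ : ℝ) (hδ : 0 < δ) : ∃ τ C : ℝ, 0 < τ ∧ τ ≤ 1 ∧ ∀ (𝒜 : Set ℕ) (X : ℝ), 1 ≤ X →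
    {t : ℕ | t ∈ {p : ℕ | p.Prime ∧ ¬ Good δ τ 𝒜 p} ∧ (t : ℝ) ≤ X}.Finite ∧
    ({t : ℕ | t ∈ {p : ℕ | p.Prime ∧ ¬ Good δ τ 𝒜 p} ∧ (t : ℝ) ≤ X}.ncard : ℝ) ≤ C * X ^ (1 - τ) := by
  obtain ⟨τ, C, hτ, hτ1, h⟩ := count δ hδ
  refine ⟨τ, |C|, hτ, hτ1, fun 𝒜 X hX => ?_⟩
  have hX1 : 1 ≤ ⌊X⌋₊ := Nat.le_floor (by exact_mod_cast hX)
  have hsub : {t : ℕ | t ∈ {p : ℕ | p.Prime ∧ ¬ Good δ τ 𝒜 p} ∧ (t : ℝ) ≤ X} ⊆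
      {t : ℕ | 1 ≤ t ∧ t ≤ ⌊X⌋₊ ∧ (t.Prime ∧ ¬ Good δ τ 𝒜 t)} := by
    rintro t ⟨⟨ht, ht2⟩, htX⟩
    exact ⟨ht.one_lt.le, Nat.le_floor htX, ht, ht2⟩
  have hfin : {t : ℕ | 1 ≤ t ∧ t ≤ ⌊X⌋₊ ∧ (t.Prime ∧ ¬ Good δ τ 𝒜 t)}.Finite :=
    (Set.finite_Icc 1 ⌊X⌋₊).subset fun t ht => ⟨ht.1, ht.2.1⟩
  refine ⟨hfin.subset hsub, ?_⟩
  have h2 := Set.ncard_le_ncard hsub hfin
  have h3 := h 𝒜 ⌊X⌋₊ hX1
  have h4 : ((⌊X⌋₊ : ℕ) : ℝ) ^ (1 - τ) ≤ X ^ (1 - τ) :=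
    Real.rpow_le_rpow (Nat.cast_nonneg _) (Nat.floor_le (by linarith)) (by linarith)
  calc ({t : ℕ | t ∈ {p : ℕ | p.Prime ∧ ¬ Good δ τ 𝒜 p} ∧ (t : ℝ) ≤ X}.ncard : ℝ) ≤
        ({t : ℕ | 1 ≤ t ∧ t ≤ ⌊X⌋₊ ∧ (t.Prime ∧ ¬ Good δ τ 𝒜 t)}.ncard : ℝ) := by exact_mod_cast h2
    _ ≤ C * ((⌊X⌋₊ : ℕ) : ℝ) ^ (1 - τ) := h3
    _ ≤ |C| * X ^ (1 - τ) := (mul_le_mul_of_nonneg_right (le_abs_self _) (by positivity)).trans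
            (mul_le_mul_of_nonneg_left h4 (abs_nonneg _))

end Pool.Agent.L7h79.CB
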