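import Pool.Agent.N793.GP.Bh

/-! Difference sums: the sets in general position in one window of sizes control all larger sets. This is the argument of
`Pool/Agent/N793/GP/Exp.lean` (sums of `χ (a + b)`) for the kernel `χ (a - b)`. -/

set_option autoImplicit false

namespace Pool.Agent.L7h79.CB

open Finset
open Pool.Agent.N793.PG Pool.Agent.N793.GP

/-- The bound `p ^ (-δ) |A|²` for the sum of `χ (a - b)` over `a, b ∈ A`, for the sets `A` with more than `p ^ α` and at most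
`4 p ^ α` elements which are in general position. -/
def WinGP {n : ℕ} (F : ∀ p : ℕ, MulChar (ZMod p) ℂ → Prop)
    (Ps : ∀ p : ℕ, Finset (MvPolynomial (Fin n) (ZMod p))) (α δ : ℝ) : Prop :=
  ∃ p₀ : ℕ, ∀ p : ℕ, p.Prime → p₀ < p → ∀ A : Finset (ZMod p),
    (p : ℝ) ^ α < (A.card : ℝ) → (A.card : ℝ) ≤ 4 * (p : ℝ) ^ α → GenPos (Ps p) A →
      ∀ χ : MulChar (ZMod p) ℂ, χ ≠ 1 → F p χ →
        ‖∑ a ∈ A, ∑ b ∈ A, χ (a - b)‖ ≤ (p : ℝ) ^ (-δ) * (A.card : ℝ) ^ 2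

/-- The bound `p ^ (-δ) |A|²` for the sum of `χ (a - b)` over `a, b ∈ A`, for all sets `A` with more than `p ^ α` elements. -/
def DSaves (F : ∀ p : ℕ, MulChar (ZMod p) ℂ → Prop) (α δ : ℝ) : Prop :=
  ∃ p₀ : ℕ, ∀ p : ℕ, p.Prime → p₀ < p → ∀ A : Finset (ZMod p), (p : ℝ) ^ α < (A.card : ℝ) →
      ∀ χ : MulChar (ZMod p) ℂ, χ ≠ 1 → F p χ →
        ‖∑ a ∈ A, ∑ b ∈ A, χ (a - b)‖ ≤ (p : ℝ) ^ (-δ) * (A.card : ℝ) ^ 2

variable {F : ∀ p : ℕ, MulChar (ZMod p) ℂ → Prop} {n : ℕ}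

/-- the finite step: the density of a one-set sum -/
theorem densityD {p : ℕ} (hp : p.Prime) (χ : MulChar (ZMod p) ℂ)
    (Ps : Finset (MvPolynomial (Fin (n + 1)) (ZMod p))) (D : ℕ)
    (hPs : ∀ P ∈ Ps, P ≠ 0 ∧ P.totalDegree ≤ D) (m : ℕ) (hm : 2 ≤ m) (τ : ℝ) (hτ : 0 ≤ τ)
    (H : ∀ A' : Finset (ZMod p), 3 * m ≤ 4 * A'.card → A'.card ≤ m → GenPos Ps A' →
      ‖∑ a ∈ A', ∑ b ∈ A', χ (a - b)‖ ≤ τ * (A'.card : ℝ) ^ 2)
    (A : Finset (ZMod p)) (hA : A.Nonempty) :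
    ‖∑ a ∈ A, ∑ b ∈ A, χ (a - b)‖ ≤
      (2 * τ + 2 / m + 8 * ((Ps.card : ℝ) * D * (m : ℝ) ^ n + m) / A.card) * (A.card : ℝ) ^ 2 := by
  classical
  have : Fact p.Prime := ⟨hp⟩
  have hc : (0 : ℝ) < A.card := by exact_mod_cast card_pos.2 hA
  have hm2 : (2 : ℝ) ≤ m := by exact_mod_cast hm
  have hm0 : (0 : ℝ) < m := by linarith
  rw [← div_le_iff₀ (by positivity)]
  set κ := ‖∑ a ∈ A, ∑ b ∈ A, χ (a - b)‖ / (A.card : ℝ) ^ 2 with hκ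
  have hκ0 : 0 ≤ κ := by positivity
  set Q : ℝ := (Ps.card : ℝ) * D * (m : ℝ) ^ n + m with hQ
  have hQ0 : 0 ≤ Q := by positivity
  have hE : 4 * (m : ℝ) * ((Ps.card : ℝ) * D * (m : ℝ) ^ (n + 1) + (m : ℝ) ^ 2) / A.card =
      m ^ 2 / 2 * (8 * Q / A.card) := by
    rw [hQ]; field_simp; ring
  have hG : (m : ℝ) ^ 2 / 2 * κ ≤ (m : ℝ) * (m - 1) * κ := by
    refine mul_le_mul_of_nonneg_right ?_ hκ0
    nlinarith
  have hpos : (0 : ℝ) < (m : ℝ) ^ 2 / 2 := by positivity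
  have hE0 : 0 ≤ 8 * Q / A.card := by positivity
  have hmm : 0 ≤ 2 / (m : ℝ) := by positivity
  by_cases hbig : 4 * (m : ℝ) * ((Ps.card : ℝ) * D * (m : ℝ) ^ (n + 1) + (m : ℝ) ^ 2) / A.card <
      (m : ℝ) * (m - 1) * κ
  · obtain ⟨A', -, h2, h3, h4, h5⟩ := sample (fun a b => χ (a - b)) (fun x y => norm_le_one χ _) A
      n m D Ps hPs hA hbig
    have h6 := H A' h2 h3 h4
    have h7 : τ * (A'.card : ℝ) ^ 2 ≤ τ * (m : ℝ) ^ 2 := by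
      refine mul_le_mul_of_nonneg_left ?_ hτ
      have : (A'.card : ℝ) ≤ m := by exact_mod_cast h3
      exact pow_le_pow_left₀ (Nat.cast_nonneg _) this 2
    have h8 : (m : ℝ) ^ 2 / 2 * κ ≤ (m : ℝ) ^ 2 / 2 * (2 * τ + 2 / m + 8 * Q / A.card) := by
      have h9 : (m : ℝ) ^ 2 / 2 * (2 * τ + 2 / m + 8 * Q / A.card) =
          τ * (m : ℝ) ^ 2 + m + m ^ 2 / 2 * (8 * Q / A.card) := by
        field_simp
      rw [h9, ← hE]
      linarith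
    exact le_of_mul_le_mul_left h8 hpos
  · push Not at hbig
    rw [hE] at hbig
    have h8 : (m : ℝ) ^ 2 / 2 * κ ≤ (m : ℝ) ^ 2 / 2 * (8 * Q / A.card) := by linarith
    have h9 := le_of_mul_le_mul_left h8 hpos
    linarith

/-- **One set in general position controls one arbitrary set.** -/
theorem WinGP.all {Ps : ∀ p : ℕ, Finset (MvPolynomial (Fin (n + 1)) (ZMod p))}
    {κ ε₁ δ₁ ε₂ δ₂ : ℝ} (H : WinGP F Ps ε₁ δ₁) (hPs : Few Ps κ) (h0 : 0 < ε₁)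
    (hε : n * ε₁ + κ < ε₂) (hε' : ε₁ < ε₂) (hδ1 : δ₂ < δ₁) (hδ2 : δ₂ < ε₁)
    (hδ3 : δ₂ < ε₂ - (n * ε₁ + κ)) (hδ4 : δ₂ < ε₂ - ε₁) : DSaves F ε₂ δ₂ := by
  obtain ⟨p₀, H⟩ := H
  obtain ⟨p₁, hPs⟩ := hPs
  obtain ⟨p₂, hp₂⟩ := large 8 (δ₁ - δ₂) (by linarith)
  obtain ⟨p₃, hp₃⟩ := large 8 (ε₁ - δ₂) (by linarith)
  obtain ⟨p₄, hp₄⟩ := large (32 * 4 ^ n) (ε₂ - (n * ε₁ + κ) - δ₂) (by linarith)
  obtain ⟨p₅, hp₅⟩ := large 128 (ε₂ - ε₁ - δ₂) (by linarith)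
  refine ⟨p₀ + p₁ + p₂ + p₃ + p₄ + p₅, fun p hp hlt A hA χ hχ hF => ?_⟩
  obtain ⟨D, hD1, hD2⟩ := hPs p hp (by omega)
  have e2 := hp₂ p (by omega)
  have e3 := hp₃ p (by omega)
  have e4 := hp₄ p (by omega)
  have e5 := hp₅ p (by omega)
  have hp1 : (1 : ℝ) ≤ p := by exact_mod_cast hp.one_le
  have hp0 : (0 : ℝ) < p := by linarith
  set x : ℝ := (p : ℝ) ^ ε₁ with hx
  have hx1 : 1 ≤ x := Real.one_le_rpow hp1 h0.le
  set m : ℕ := ⌈2 * x⌉₊ with hm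
  have hm1 : 2 * x ≤ (m : ℝ) := Nat.le_ceil _
  have hm2 : (m : ℝ) ≤ 4 * x := by
    have := ceil_le_two_mul (show 1 ≤ 2 * x by linarith)
    linarith
  have hmge : 2 ≤ m := by
    have : (2 : ℝ) ≤ m := by linarith
    exact_mod_cast this
  have hAne : A.Nonempty := by
    rw [← card_pos]
    have : (0 : ℝ) < A.card := (Real.rpow_pos_of_pos hp0 _).trans hA
    exact_mod_cast this
  have hc : (0 : ℝ) < A.card := by exact_mod_cast card_pos.2 hAne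
  have h1 := densityD hp χ (Ps p) D hD1 m hmge ((p : ℝ) ^ (-δ₁)) (Real.rpow_pos_of_pos hp0 _).le
    (fun A' hA' hA'' hgp => H p hp (by omega) A' (by
      have h2 : 3 * (m : ℝ) ≤ 4 * (A'.card : ℝ) := by exact_mod_cast hA'
      have h3 : 6 * x ≤ 4 * (A'.card : ℝ) := by linarith
      rw [← hx]
      linarith) (by
      have h2 : (A'.card : ℝ) ≤ m := by exact_mod_cast hA''
      rw [← hx]
      linarith) hgp χ hχ hF) A hAne
  refine h1.trans (mul_le_mul_of_nonneg_right ?_ (by positivity))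
  -- four terms
  set y : ℝ := (p : ℝ) ^ (-δ₂) with hy
  have t1 : 8 * (p : ℝ) ^ (-δ₁) ≤ y := by
    calc 8 * (p : ℝ) ^ (-δ₁) ≤ (p : ℝ) ^ (δ₁ - δ₂) * (p : ℝ) ^ (-δ₁) :=
          mul_le_mul_of_nonneg_right e2 (Real.rpow_pos_of_pos hp0 _).le
      _ = y := by rw [hy, ← Real.rpow_add hp0]; congr 1; ring
  have t2 : 8 * (1 / (m : ℝ)) ≤ y := by
    have h2 : 1 / (m : ℝ) ≤ 1 / x := by
      apply one_div_le_one_div_of_le (by linarith)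
      linarith
    have h3 : 1 / x = (p : ℝ) ^ (-ε₁) := by rw [hx, Real.rpow_neg hp0.le, one_div]
    calc 8 * (1 / (m : ℝ)) ≤ (p : ℝ) ^ (ε₁ - δ₂) * (p : ℝ) ^ (-ε₁) := by
          refine mul_le_mul e3 (by rw [← h3]; exact h2) (by positivity) (by positivity)
      _ = y := by rw [hy, ← Real.rpow_add hp0]; congr 1; ring
  have hAinv : 1 / (A.card : ℝ) ≤ (p : ℝ) ^ (-ε₂) := by
    rw [Real.rpow_neg hp0.le, ← one_div]
    exact one_div_le_one_div_of_le (Real.rpow_pos_of_pos hp0 _) hA.le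
  have t3 : 32 * ((((Ps p).card : ℝ) * D * (m : ℝ) ^ n) * (1 / A.card)) ≤ y := by
    have h2 : (m : ℝ) ^ n ≤ 4 ^ n * (p : ℝ) ^ (n * ε₁) := by
      calc (m : ℝ) ^ n ≤ (4 * x) ^ n := pow_le_pow_left₀ (Nat.cast_nonneg _) hm2 n
        _ = 4 ^ n * (p : ℝ) ^ (n * ε₁) := by
            rw [mul_pow, hx, ← Real.rpow_natCast, ← Real.rpow_natCast ((p : ℝ) ^ ε₁),
              ← Real.rpow_mul hp0.le]
            congr 2
            ring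
    calc 32 * ((((Ps p).card : ℝ) * D * (m : ℝ) ^ n) * (1 / A.card))
        ≤ 32 * (((p : ℝ) ^ κ * (4 ^ n * (p : ℝ) ^ (n * ε₁))) * (p : ℝ) ^ (-ε₂)) := by
          refine mul_le_mul_of_nonneg_left ?_ (by norm_num)
          refine mul_le_mul ?_ hAinv (by positivity) (by positivity)
          exact mul_le_mul hD2 h2 (by positivity) (by positivity)
      _ = (32 * 4 ^ n) * (p : ℝ) ^ (n * ε₁ + κ - ε₂) := by
          rw [show n * ε₁ + κ - ε₂ = κ + n * ε₁ + (-ε₂) by ring, Real.rpow_add hp0,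
            Real.rpow_add hp0]
          ring
      _ ≤ (p : ℝ) ^ (ε₂ - (n * ε₁ + κ) - δ₂) * (p : ℝ) ^ (n * ε₁ + κ - ε₂) :=
          mul_le_mul_of_nonneg_right e4 (Real.rpow_pos_of_pos hp0 _).le
      _ = y := by rw [hy, ← Real.rpow_add hp0]; congr 1; ring
  have t4 : 32 * ((m : ℝ) * (1 / A.card)) ≤ y := by
    calc 32 * ((m : ℝ) * (1 / A.card)) ≤ 32 * ((4 * x) * (p : ℝ) ^ (-ε₂)) := by
          refine mul_le_mul_of_nonneg_left ?_ (by norm_num)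
          exact mul_le_mul hm2 hAinv (by positivity) (by positivity)
      _ = 128 * (p : ℝ) ^ (ε₁ - ε₂) := by
          rw [hx, sub_eq_add_neg, Real.rpow_add hp0]
          ring
      _ ≤ (p : ℝ) ^ (ε₂ - ε₁ - δ₂) * (p : ℝ) ^ (ε₁ - ε₂) :=
          mul_le_mul_of_nonneg_right e5 (Real.rpow_pos_of_pos hp0 _).le
      _ = y := by rw [hy, ← Real.rpow_add hp0]; congr 1; ring
  have t5 : 2 / (m : ℝ) = 2 * (1 / (m : ℝ)) := by ring
  have t6 : 8 * (((Ps p).card : ℝ) * D * (m : ℝ) ^ n + m) / (A.card : ℝ) =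
      8 * ((((Ps p).card : ℝ) * D * (m : ℝ) ^ n) * (1 / A.card)) +
        8 * ((m : ℝ) * (1 / A.card)) := by ring
  rw [t5, t6]
  linarith


/-- the same with the optimal parameters -/
theorem WinGP.saves {Ps : ∀ p : ℕ, Finset (MvPolynomial (Fin (n + 1)) (ZMod p))}
    {κ ε₁ δ₁ ε δ : ℝ} (H : WinGP F Ps ε₁ δ₁) (hPs : Few Ps κ) (h0 : 0 < ε₁)
    (hε : max (n * ε₁ + κ) ε₁ < ε)
    (hδ : δ < min (min δ₁ ε₁) (ε - max (n * ε₁ + κ) ε₁)) : DSaves F ε δ := by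
  have h1 := min_le_left (min δ₁ ε₁) (ε - max (n * ε₁ + κ) ε₁)
  have h2 := min_le_right (min δ₁ ε₁) (ε - max (n * ε₁ + κ) ε₁)
  have h3 := min_le_left δ₁ ε₁
  have h4 := min_le_right δ₁ ε₁
  have h5 := le_max_left (n * ε₁ + κ) ε₁
  have h6 := le_max_right (n * ε₁ + κ) ε₁
  refine H.all hPs h0 ?_ ?_ ?_ ?_ ?_ ?_ <;> linarith

/-- the bound in the form of the question for the sets `A` with the property `R` -/
def SavesR (R : ∀ p : ℕ, Finset (ZMod p) → Prop) (δ τ : ℝ) : Prop :=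
  ∃ p₀ : ℕ, ∀ p : ℕ, p.Prime → p₀ < p → ∀ A : Finset (ZMod p), (p : ℝ) ^ δ < (A.card : ℝ) → R p A →
    ∀ χ : DirichletCharacter ℂ p, χ ≠ 1 → ‖∑ a ∈ A, ∑ b ∈ A, χ (a - b)‖ < (A.card : ℝ) ^ (2 - τ)

theorem card_le_p {p : ℕ} (hp : p.Prime) (A : Finset (ZMod p)) : (A.card : ℝ) ≤ p := by
  haveI : Fact p.Prime := ⟨hp⟩
  have h := card_le_univ A
  rw [ZMod.card] at h
  exact_mod_cast h

/-- from a saving of a power of `p` to the form of the question -/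
theorem savesR_of {R : ∀ p : ℕ, Finset (ZMod p) → Prop} {δ δ' : ℝ} (hδ' : 0 < δ')
    (h : ∃ p₀ : ℕ, ∀ p : ℕ, p.Prime → p₀ < p → ∀ A : Finset (ZMod p), (p : ℝ) ^ δ < (A.card : ℝ) → R p A →
      ∀ χ : MulChar (ZMod p) ℂ, χ ≠ 1 → ‖∑ a ∈ A, ∑ b ∈ A, χ (a - b)‖ ≤ (p : ℝ) ^ (-δ') * (A.card : ℝ) ^ 2) :
    SavesR R δ (δ' / 2) := by
  obtain ⟨p₀, H⟩ := h
  refine ⟨p₀ + 2, fun p hp hlt A hA hR χ hχ => ?_⟩
  refine lt_of_le_of_lt (H p hp (by omega) A hA hR χ hχ) ?_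
  have hp1 : (1 : ℝ) < p := by exact_mod_cast hp.one_lt
  have hp0 : (0 : ℝ) < p := by linarith
  have hc : (0 : ℝ) < A.card := (Real.rpow_pos_of_pos hp0 _).trans hA
  have h1 : (A.card : ℝ) ^ (2 - δ' / 2) = (A.card : ℝ) ^ (-(δ' / 2)) * (A.card : ℝ) ^ 2 := by
    rw [← Real.rpow_natCast, ← Real.rpow_add hc]
    congr 1
    push_cast
    ring
  rw [h1]
  refine mul_lt_mul_of_pos_right ?_ (by positivity)
  calc (p : ℝ) ^ (-δ') < (p : ℝ) ^ (-(δ' / 2)) := Real.rpow_lt_rpow_of_exponent_lt hp1 (by linarith)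
    _ ≤ (A.card : ℝ) ^ (-(δ' / 2)) := Real.rpow_le_rpow_of_nonpos hc (card_le_p hp A) (by linarith)

/-- and back -/
theorem of_savesR {R : ∀ p : ℕ, Finset (ZMod p) → Prop} {δ τ : ℝ} (hδ : 0 < δ) (hτ : 0 < τ) (h : SavesR R δ τ) :
    ∃ p₀ : ℕ, ∀ p : ℕ, p.Prime → p₀ < p → ∀ A : Finset (ZMod p), (p : ℝ) ^ δ < (A.card : ℝ) → R p A →
      ∀ χ : MulChar (ZMod p) ℂ, χ ≠ 1 → ‖∑ a ∈ A, ∑ b ∈ A, χ (a - b)‖ ≤ (p : ℝ) ^ (-(δ * τ)) * (A.card : ℝ) ^ 2 := by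
  obtain ⟨p₀, H⟩ := h
  refine ⟨p₀ + 2, fun p hp hlt A hA hR χ hχ => ?_⟩
  refine (H p hp (by omega) A hA hR χ hχ).le.trans ?_
  have hp1 : (1 : ℝ) < p := by exact_mod_cast hp.one_lt
  have hp0 : (0 : ℝ) < p := by linarith
  have hc : (0 : ℝ) < A.card := (Real.rpow_pos_of_pos hp0 _).trans hA
  have h1 : (A.card : ℝ) ^ (2 - τ) = (A.card : ℝ) ^ (-τ) * (A.card : ℝ) ^ 2 := by
    rw [← Real.rpow_natCast, ← Real.rpow_add hc]
    congr 1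
    push_cast
    ring
  rw [h1]
  refine mul_le_mul_of_nonneg_right ?_ (by positivity)
  calc (A.card : ℝ) ^ (-τ) ≤ ((p : ℝ) ^ δ) ^ (-τ) :=
        Real.rpow_le_rpow_of_nonpos (Real.rpow_pos_of_pos hp0 _) hA.le (by linarith)
    _ = (p : ℝ) ^ (-(δ * τ)) := by rw [← Real.rpow_mul hp0.le]; congr 1; ring

/-- the question is decided on the sets in general position in small windows -/
theorem iff_gp {n : ℕ} {Ps : ∀ p : ℕ, Finset (MvPolynomial (Fin (n + 1)) (ZMod p))} (hPs : ∀ κ : ℝ, 0 < κ → Few Ps κ) :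
    (∀ δ : ℝ, 0 < δ → ∃ τ : ℝ, 0 < τ ∧ SavesR (fun _ _ => True) δ τ) ↔
      ∀ δ : ℝ, 0 < δ → ∃ τ : ℝ, 0 < τ ∧ SavesR (fun p A => (A.card : ℝ) ≤ 4 * (p : ℝ) ^ δ ∧ GenPos (Ps p) A) δ τ := by
  constructor
  · intro h δ hδ
    obtain ⟨τ, hτ, p₀, H⟩ := h δ hδ
    exact ⟨τ, hτ, p₀, fun p hp hlt A hA _ χ hχ => H p hp hlt A hA trivial χ hχ⟩
  · intro h ε hε
    have hn : (0 : ℝ) ≤ n := Nat.cast_nonneg _
    have hx : 0 < ε / (n + 2) := by positivity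
    obtain ⟨τ, hτ, H⟩ := h (ε / (n + 2)) hx
    obtain ⟨p₀, H⟩ := of_savesR hx hτ H
    have e1 : ε / (n + 2) * (n + 2) = ε := by field_simp
    have h5 : max (n * (ε / (n + 2)) + ε / (n + 2)) (ε / (n + 2)) < ε := by
      rw [max_lt_iff]
      constructor <;> nlinarith
    have hδ₁ : 0 < ε / (n + 2) * τ := by positivity
    have h6 : 0 < min (min (ε / (n + 2) * τ) (ε / (n + 2)))
        (ε - max (n * (ε / (n + 2)) + ε / (n + 2)) (ε / (n + 2))) := by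
      refine lt_min (lt_min hδ₁ hx) ?_
      linarith
    obtain ⟨δ, hd1, hd2⟩ := exists_between h6
    have hw : WinGP (fun _ _ => True) Ps (ε / (n + 2)) (ε / (n + 2) * τ) :=
      ⟨p₀, fun p hp hlt A hA hA4 hgp χ hχ _ => H p hp hlt A hA ⟨hA4, hgp⟩ χ hχ⟩
    obtain ⟨p₁, H₁⟩ := hw.saves (hPs _ hx) hx h5 hd2
    exact ⟨δ / 2, half_pos hd1, savesR_of hd1 ⟨p₁, fun p hp hlt A hA _ χ hχ => H₁ p hp hlt A hA χ hχ trivial⟩⟩

end Pool.Agent.L7h79.CB
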